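import Mathlib
import Pool.Agent.V11102.Equi.Hilb

/-!
In ZFC: an equivalent renorming of `ℓ₂(ω₁)` without uncountable equilateral sets.
-/

set_option autoImplicit false

namespace Pool.Agent.Results.MP_55235b_an.NoUncountableEquilateral

open Filter Topology Set
open scoped RealInnerProductSpace Cardinal
open Pool.Agent.V11102.Equi (IsPr Nf Qf Lim N_add N_smul N_ge N_le exists_lim unique lim_shift
  Q_nonneg)

universe u

/-- The real Hilbert space `ℓ₂(Γ)`. -/
def L2 (Γ : Type u) : Type u := lp (fun _ : Γ => ℝ) 2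

noncomputable instance (Γ : Type u) : NormedAddCommGroup (L2 Γ) :=
  lp.normedAddCommGroup (E := fun _ : Γ => ℝ) (p := 2)

noncomputable instance (Γ : Type u) : NormedSpace ℝ (L2 Γ) :=
  lp.instNormedSpace (E := fun _ : Γ => ℝ) (p := 2) (𝕜 := ℝ)

/-- `Y` is `δ`-equilateral for the norm `N`: any two distinct points of `Y` are at `N`-distance
exactly `δ`. -/
def IsEquilateral {E : Type*} [AddCommGroup E] (N : E → ℝ) (δ : ℝ) (Y : Set E) : Prop :=
  ∀ x ∈ Y, ∀ y ∈ Y, x ≠ y → N (x - y) = δ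

/-- `N` is a norm on the real normed space `E` with `‖x‖ ≤ N x ≤ C ‖x‖`. -/
structure IsEquivNorm {E : Type*} [NormedAddCommGroup E] [NormedSpace ℝ E] (N : E → ℝ)
    (C : ℝ) : Prop where
  add_le : ∀ x y, N (x + y) ≤ N x + N y
  smul : ∀ (c : ℝ) x, N (c • x) = |c| * N x
  ge : ∀ x, ‖x‖ ≤ N x
  le : ∀ x, N x ≤ C * ‖x‖

/-- For every `η > 0` the Hilbert space `ℓ₂(Γ)` has a norm `N` with `‖x‖ ≤ N x ≤ (1 + η) ‖x‖`
all of whose equilateral sets are countable. -/
def HasRenorming (Γ : Type u) : Prop :=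
  ∀ η : ℝ, 0 < η → ∃ N : L2 Γ → ℝ, IsEquivNorm N (1 + η) ∧
    ∀ (δ : ℝ) (Y : Set (L2 Γ)), 0 < δ → IsEquilateral N δ Y → Y.Countable

section
variable {Γ : Type u}

/-- restriction of a square-summable function to a set -/
noncomputable def res (A : Set Γ) : lp (fun _ : Γ => ℝ) 2 →L[ℝ] lp (fun _ : Γ => ℝ) 2 :=
  LinearMap.mkContinuous
    { toFun := fun x => ⟨A.indicator x, (lp.memℓp x).mono' (fun i =>
        norm_indicator_le_norm_self _ _)⟩
      map_add' := fun x y => by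
        apply lp.ext
        exact Set.indicator_add A x y
      map_smul' := fun c x => by
        apply lp.ext
        exact Set.indicator_const_smul A c x } 1 (fun x => by
      rw [one_mul]
      exact lp.norm_mono two_ne_zero (fun i => norm_indicator_le_norm_self _ _))

theorem res_apply (A : Set Γ) (x : lp (fun _ : Γ => ℝ) 2) (γ : Γ) :
    res A x γ = A.indicator x γ := rfl

theorem isPr_res (A : Set Γ) : IsPr (res A) := by
  refine ⟨fun x y => ?_, fun x => ?_⟩
  · rw [lp.inner_eq_tsum, lp.inner_eq_tsum]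
    apply tsum_congr
    intro γ
    rw [res_apply, res_apply]
    by_cases h : γ ∈ A
    · rw [Set.indicator_of_mem h, Set.indicator_of_mem h]
    · rw [Set.indicator_of_notMem h, Set.indicator_of_notMem h, inner_zero_left,
        inner_zero_right]
  · apply lp.ext
    funext γ
    rw [res_apply]
    show A.indicator (A.indicator x) γ = A.indicator x γ
    rw [Set.indicator_indicator, Set.inter_self]

theorem normsq (x : lp (fun _ : Γ => ℝ) 2) : HasSum (fun γ => (x γ) ^ 2) (‖x‖ ^ 2) := by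
  have h := lp.hasSum_inner (𝕜 := ℝ) x x
  rw [real_inner_self_eq_norm_sq] at h
  refine h.congr_fun ?_
  intro γ
  rw [real_inner_self_eq_norm_sq, Real.norm_eq_abs, sq_abs]

/-- the cylinder sets -/
def cyl (r : Γ → Set ℕ) (i : ℕ × Finset ℕ) : Set Γ :=
  {γ | ∀ j < i.1, (j ∈ r γ ↔ j ∈ i.2)}

open Classical in
/-- the cylinder of length `k` around `γ` -/
noncomputable def code (r : Γ → Set ℕ) (γ : Γ) (k : ℕ) : ℕ × Finset ℕ :=
  (k, (Finset.range k).filter (· ∈ r γ))

theorem mem_cyl_code (r : Γ → Set ℕ) (γ γ' : Γ) (k : ℕ) :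
    γ' ∈ cyl r (code r γ k) ↔ ∀ j < k, (j ∈ r γ' ↔ j ∈ r γ) := by
  unfold cyl code
  simp only [Set.mem_ofPred_eq, Finset.mem_filter, Finset.mem_range]
  constructor
  · intro h j hj
    rw [h j hj]
    exact ⟨fun h => h.2, fun h => ⟨hj, h⟩⟩
  · intro h j hj
    rw [h j hj]
    exact ⟨fun h => ⟨hj, h⟩, fun h => h.2⟩

theorem coord_lim {r : Γ → Set ℕ} (hr : Function.Injective r) (x : lp (fun _ : Γ => ℝ) 2)
    (γ : Γ) : Tendsto (fun k => ‖res (cyl r (code r γ k)) x‖ ^ 2) atTop (𝓝 ((x γ) ^ 2)) := by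
  classical
  have h1 : ∀ k, ‖res (cyl r (code r γ k)) x‖ ^ 2 =
      ∑' γ', ((cyl r (code r γ k)).indicator x γ') ^ 2 :=
    fun k => (normsq _).tsum_eq.symm
  have h2 : (x γ) ^ 2 = ∑' γ', if γ' = γ then (x γ) ^ 2 else 0 := (tsum_ite_eq γ (fun _ => (x γ) ^ 2)).symm
  simp only [h1]
  rw [h2]
  apply tendsto_tsum_of_dominated_convergence (normsq x).summable
  · intro γ'
    by_cases h : γ' = γ
    · rw [if_pos h, h]
      apply tendsto_const_nhds.congr
      intro k
      rw [Set.indicator_of_mem ((mem_cyl_code r γ γ k).mpr (fun j _ => Iff.rfl))]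
    · rw [if_neg h]
      have hne : r γ' ≠ r γ := fun h' => h (hr h')
      obtain ⟨j, hj⟩ : ∃ j, ¬ (j ∈ r γ' ↔ j ∈ r γ) := by
        by_contra hcon
        push Not at hcon
        exact hne (Set.ext hcon)
      apply tendsto_const_nhds.congr'
      filter_upwards [eventually_gt_atTop j] with k hk
      rw [Set.indicator_of_notMem, zero_pow two_ne_zero]
      intro hmem
      exact hj ((mem_cyl_code r γ γ' k).mp hmem j hk)
  · apply Eventually.of_forall
    intro k γ'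
    rw [Real.norm_eq_abs, abs_of_nonneg (sq_nonneg _), sq_le_sq]
    have h := norm_indicator_le_norm_self (s := cyl r (code r γ k)) (f := ⇑x) γ'
    exact h

theorem countable_ne {S : Type*} {f : S → ℝ} {c : ℝ} (h : Tendsto f cofinite (𝓝 c)) :
    {s | f s ≠ c}.Countable := by
  have h1 := h.countable_compl_preimage_ker
  refine h1.mono ?_
  intro s hs hs'
  rw [Set.mem_preimage, ker_nhds] at hs'
  exact hs hs'

theorem main_lp (r : Γ → Set ℕ) (hr : Function.Injective r) (η : ℝ) (hη : 0 < η) :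
    ∃ N : lp (fun _ : Γ => ℝ) 2 → ℝ, IsEquivNorm N (1 + η) ∧
    ∀ (δ : ℝ) (Y : Set (lp (fun _ : Γ => ℝ) 2)), 0 < δ → IsEquilateral N δ Y → Y.Countable := by
  let ι := ℕ × Finset ℕ
  set P : ι → lp (fun _ : Γ => ℝ) 2 →L[ℝ] lp (fun _ : Γ => ℝ) 2 := fun i => res (cyl r i)
  have hP : ∀ i, IsPr (P i) := fun i => isPr_res _
  have hθ : 0 < min η 1 := lt_min hη one_pos
  obtain ⟨w, hw, c, hwc, hc⟩ := posSumOfEncodable hθ ι
  have hs : Summable w := hwc.summable
  have hW : ∑' i, w i ≤ 1 := by rw [hwc.tsum_eq]; exact hc.trans (min_le_right _ _)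
  have hW' : ∑' i, w i ≤ η := by rw [hwc.tsum_eq]; exact hc.trans (min_le_left _ _)
  have hW0 : 0 ≤ ∑' i, w i := tsum_nonneg (fun i => (hw i).le)
  refine ⟨Nf w P, ⟨N_add hP hw hs hW, N_smul, N_ge hP hw, fun z => ?_⟩, ?_⟩
  · refine (N_le hP hw hs z).trans (mul_le_mul_of_nonneg_right ?_ (norm_nonneg z))
    rw [Real.sqrt_le_left (by linarith)]
    nlinarith
  intro δ Y hδ hY
  by_contra hunc
  -- the family
  let x : Y → lp (fun _ : Γ => ℝ) 2 := fun s => s.1
  have hinf : Infinite Y := by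
    rw [Set.infinite_coe_iff]
    intro hfin
    exact hunc hfin.countable
  have hD : ∀ s s' : Y, s ≠ s' → Qf w P (x s - x s') = δ ^ 2 := by
    intro s s' hss
    have h1 : Nf w P (x s - x s') = δ := hY s.1 s.2 s'.1 s'.2 (fun h => hss (Subtype.ext h))
    rw [← h1]
    unfold Nf
    rw [Real.sq_sqrt (Q_nonneg hP hw _)]
  have hD0 : 0 < δ ^ 2 := by positivity
  obtain ⟨s₁⟩ : Nonempty Y := inferInstance
  have hC : ∀ s : Y, ‖x s‖ ≤ ‖x s₁‖ + δ := by
    intro s
    rcases eq_or_ne s s₁ with rfl | hne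
    · linarith
    · have h1 : Nf w P (x s - x s₁) = δ := hY s.1 s.2 s₁.1 s₁.2 (fun h => hne (Subtype.ext h))
      have h2 := N_ge hP hw (x s - x s₁)
      rw [h1] at h2
      have h3 : x s = x s₁ + (x s - x s₁) := by abel
      calc ‖x s‖ = ‖x s₁ + (x s - x s₁)‖ := by rw [← h3]
        _ ≤ ‖x s₁‖ + ‖x s - x s₁‖ := norm_add_le _ _
        _ ≤ _ := by linarith
  obtain ⟨a, t, β, hL⟩ := exists_lim hP (hyperfilter Y) hC
  have hU := @hyperfilter_le_cofinite Y _
  -- convergence along the cofinite filter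
  have hconv : ∀ i, Tendsto (fun s => ‖P i (x s)‖ ^ 2) cofinite (𝓝 (β i + ‖P i a‖ ^ 2)) := by
    intro i
    rw [tendsto_iff_ultrafilter]
    intro g hg
    obtain ⟨a', t', β', hL'⟩ := exists_lim hP g hC
    obtain ⟨-, e1, -, e3⟩ := unique hP hw hs hC hD hD0 hU hg hL hL'
    have h1 := lim_shift (hP i) hL'.weak (hL'.par i) 0
    rw [e1, e3]
    simpa only [sub_zero] using h1
  -- the good points
  let S₀ : Set Y := {s | ∀ i, ‖P i (x s)‖ ^ 2 = β i + ‖P i a‖ ^ 2}
  have hS₀ : S₀.Infinite := by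
    intro hfin
    have h1 : (⋃ i, {s : Y | ‖P i (x s)‖ ^ 2 ≠ β i + ‖P i a‖ ^ 2}).Countable :=
      Set.countable_iUnion (fun i => countable_ne (hconv i))
    have h2 : (Set.univ : Set Y) = S₀ ∪ ⋃ i, {s : Y | ‖P i (x s)‖ ^ 2 ≠ β i + ‖P i a‖ ^ 2} := by
      ext s
      simp only [Set.mem_univ, true_iff]
      by_cases h : s ∈ S₀
      · exact Or.inl h
      · right
        rw [Set.mem_iUnion]
        by_contra hcon
        push Not at hcon
        exact h (fun i => by
          by_contra h'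
          exact hcon i h')
    have h3 : (Set.univ : Set Y).Countable := by
      rw [h2]
      exact hfin.countable.union h1
    have h4 : Countable Y := Set.countable_univ_iff.mp h3
    exact hunc (Set.countable_coe_iff.mp h4)
  have hcoord : ∀ s ∈ S₀, ∀ s' ∈ S₀, ∀ γ, (x s γ) ^ 2 = (x s' γ) ^ 2 := by
    intro s hs s' hs' γ
    have h1 := coord_lim hr (x s) γ
    have h2 := coord_lim hr (x s') γ
    have h3 : ∀ k, ‖res (cyl r (code r γ k)) (x s)‖ ^ 2 =
        ‖res (cyl r (code r γ k)) (x s')‖ ^ 2 := by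
      intro k
      have e1 : ‖P (code r γ k) (x s)‖ ^ 2 = _ := hs (code r γ k)
      have e2 : ‖P (code r γ k) (x s')‖ ^ 2 = _ := hs' (code r γ k)
      exact e1.trans e2.symm
    simp only [h3] at h1
    exact tendsto_nhds_unique h1 h2
  -- an ultrafilter on the good points
  have : (cofinite ⊓ 𝓟 S₀).NeBot := hS₀.cofinite_inf_principal_neBot
  let g : Ultrafilter Y := Ultrafilter.of (cofinite ⊓ 𝓟 S₀)
  have hg : (g : Filter Y) ≤ cofinite := (Ultrafilter.of_le _).trans inf_le_left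
  have hg0 : ∀ᶠ s in (g : Filter Y), s ∈ S₀ :=
    (Ultrafilter.of_le (cofinite ⊓ 𝓟 S₀)).trans inf_le_right (mem_principal_self S₀)
  obtain ⟨a', t', β', hL'⟩ := exists_lim hP g hC
  obtain ⟨ht', -⟩ := unique hP hw hs hC hD hD0 hg hg hL' hL'
  obtain ⟨s₀, hs₀⟩ := hS₀.nonempty
  have ha' : ∀ γ, (a' γ) ^ 2 = (x s₀ γ) ^ 2 := by
    classical
    intro γ
    have h1 := hL'.weak (lp.single 2 γ (1 : ℝ))
    simp only [lp.inner_single_right] at h1
    have h2 : ∀ b : ℝ, ⟪b, (1 : ℝ)⟫ = b := by intro b; simp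
    simp only [h2] at h1
    have h3 := h1.pow 2
    have h4 : Tendsto (fun s => (x s γ) ^ 2) g (𝓝 ((x s₀ γ) ^ 2)) :=
      tendsto_const_nhds.congr' (hg0.mono fun s hs => hcoord s₀ hs₀ s hs γ)
    exact tendsto_nhds_unique h3 h4
  have hnorm : ‖a'‖ ^ 2 = ‖x s₀‖ ^ 2 := by
    have h1 := normsq a'
    simp only [ha'] at h1
    exact h1.unique (normsq (x s₀))
  have hnorm2 : ∀ s ∈ S₀, ‖x s‖ ^ 2 = ‖x s₀‖ ^ 2 := by
    intro s hs
    have h1 := normsq (x s)
    simp only [hcoord s hs s₀ hs₀] at h1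
    exact h1.unique (normsq (x s₀))
  have h5 : Tendsto (fun s => ‖x s₀‖ ^ 2 - 2 * ⟪x s, a'⟫ + ‖a'‖ ^ 2) g
      (𝓝 (‖x s₀‖ ^ 2 - 2 * ⟪a', a'⟫ + ‖a'‖ ^ 2)) :=
    (((hL'.weak a').const_mul 2).const_sub _).add_const _
  have h6 : Tendsto (fun s => ‖x s - a'‖ ^ 2) g
      (𝓝 (‖x s₀‖ ^ 2 - 2 * ⟪a', a'⟫ + ‖a'‖ ^ 2)) := by
    refine h5.congr' (hg0.mono fun s hs => ?_)
    show _ = ‖x s - a'‖ ^ 2
    rw [norm_sub_sq_real, hnorm2 s hs]
  have h7 := tendsto_nhds_unique hL'.tot h6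
  rw [real_inner_self_eq_norm_sq, hnorm] at h7
  linarith

theorem main (r : Γ → Set ℕ) (hr : Function.Injective r) : HasRenorming Γ :=
  fun η hη => main_lp r hr η hη

end

theorem key {Γ : Type u} (h : #Γ ≤ 𝔠) : HasRenorming Γ := by
  have h1 : Cardinal.lift.{0} #Γ ≤ Cardinal.lift #(Set ℕ) := by
    rw [Cardinal.mk_set_nat, Cardinal.lift_continuum, Cardinal.lift_uzero]
    exact h
  obtain ⟨r⟩ := Cardinal.lift_mk_le'.mp h1
  exact main r r.injective

/-- For every set `Γ` of cardinality at most the continuum, and in particular for `Γ = ω₁` (the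
set of all countable ordinals), `ℓ₂(Γ)` has, for each `η > 0`, a norm `N` with
`‖x‖ ≤ N x ≤ (1 + η) ‖x‖` all of whose equilateral sets are countable. -/
theorem result : (∀ Γ : Type u, #Γ ≤ 𝔠 → HasRenorming Γ) ∧
    HasRenorming (Set.Iio (Ordinal.omega.{0} 1)) := by
  refine ⟨fun Γ h => key h, key ?_⟩
  rw [Cardinal.mk_Iio_ordinal, Ordinal.card_omega, Cardinal.lift_aleph]
  simpa using Cardinal.aleph_one_le_continuum

end Pool.Agent.Results.MP_55235b_an.NoUncountableEquilateral
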